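import Pool.Agent.N22.DD.Cla

/-!
# Alperin's weight conjecture for odd primes: upper bounds under one operation

Let `p` be an odd prime and `O` a valuation ring of `ℂ` whose maximal ideal contains `p`; blocks, defect
groups and block induction are defined by central characters modulo the maximal ideal of `O`
(`Pool.Agent.H254R3.IN`). For a block `B` of a finite group `G` let `S(B)` be the alternating sum
`∑_σ (-1)^|σ| k(B_σ)` of Knörr and Robinson over the classes of chains of nontrivial `p`-subgroups.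

Proof. `S(B ⊗ B) = S(B)²` and `2 S(B ≀ C₂) = S(B)² + 3 S(B)` (`Pool.Agent.N22.DD.blkAlt_sq`,
`Pool.Agent.Q90.WR.blkAlt_wr`), so `S((B ⊗ B) ≀ C₂) = (S(B)⁴ + 3 S(B)²) / 2`. This is at least two if
`S(B) ≠ 0`, and `S³ / 2` grows at least like its fourth power, while `2 |G|³` is exactly raised to the
fourth power. For `G ≀ C₂` one compares `(S + 3/2) / 2` with `2 |G|`.
-/

set_option autoImplicit false

noncomputable section

namespace Pool.Agent.Results.MP_6a3f1a_al.OneOperation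

open Pool.Agent.Y63.KR (alternatingSum)
open Pool.Agent.Q90.WR (Wr IndS AdmB bxS blkAlt)
open Pool.Agent.Q259.BW (WrS)
open Pool.Agent.N22.DD (Cl)

/-- `k(B_σ)` for `G_σ = H`: the number of the irreducible characters `θ` of the subgroup `H` with
`bl(θ)^G = B`. -/
def kB (O : ValuationSubring ℂ) {G : Type} [Group G] (B : Set (G → ℂ)) (H : Subgroup G) : ℕ :=
  Nat.card (IndS O B (Subtype.val : H → G))

/-- The alternating sum `∑_σ (-1)^|σ| k(B_σ)` of Knörr and Robinson over representatives `σ` of the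
`G`-classes of chains of nontrivial `p`-subgroups of `G`, the empty chain included. -/
def S (p : ℕ) (O : ValuationSubring ℂ) {G : Type} [Group G] (B : Set (G → ℂ)) : ℤ :=
  alternatingSum p G (fun H => (kB O B H : ℤ))

/-- On `C` the numbers `S(B)` are bounded from above by `c |G|^ε` for every `ε > 0`. -/
def Sub (p : ℕ) (O : ValuationSubring ℂ) (C : Cl) : Prop :=
  ∀ ε : ℝ, 0 < ε → ∃ c : ℝ, ∀ (G : Type) [i : Group G] (B : Set (G → ℂ)), C G i B →
    (S p O B : ℝ) ≤ c * (Nat.card G : ℝ) ^ ε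

theorem le_of_powers {m : ℕ} (hm : 2 ≤ m) {a b c : ℝ} (hb : 0 < b)
    (h : ∀ k : ℕ, a ^ (m ^ k) ≤ c * b ^ (m ^ k)) : a ≤ b := by
  by_contra hlt
  push Not at hlt
  have h1 : 1 < a / b := by rwa [one_lt_div hb]
  have h2 : ∀ k : ℕ, (a / b) ^ (m ^ k) ≤ c := by
    intro k
    rw [div_pow, div_le_iff₀ (pow_pos hb _)]
    exact h k
  obtain ⟨n, hn⟩ := pow_unbounded_of_one_lt c h1
  have h3 : (a / b) ^ n ≤ (a / b) ^ (m ^ n) := pow_le_pow_right₀ h1.le (Nat.lt_pow_self hm).le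
  linarith [h2 n]

theorem rpow_pow' {x : ℝ} (hx : 0 ≤ x) (n : ℕ) (ε : ℝ) : (x ^ n) ^ ε = (x ^ ε) ^ n := by
  rw [← Real.rpow_natCast x n, ← Real.rpow_natCast (x ^ ε) n, ← Real.rpow_mul hx,
    ← Real.rpow_mul hx, mul_comm]

section

variable {p : ℕ} [hp : Fact p.Prime] {O : ValuationSubring ℂ} {C : Cl}

theorem S_op (hp2 : p ≠ 2) (hpO : (p : ℂ) ∈ O.nonunits) {G : Type} [Group G] {B : Set (G → ℂ)}
    (h : AdmB p O G B) : 2 * S p O (WrS (bxS B B)) = S p O B ^ 4 + 3 * S p O B ^ 2 := by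
  have := h.fin
  have := Fintype.ofFinite G
  have h1 : AdmB p O (G × G) (bxS B B) := Pool.Agent.N22.DD.AdmB.prod h h
  have h2 := Pool.Agent.Q90.WR.blkAlt_wr (p := p) (G := G × G) hp2 hpO (h1.good hpO).block
    (h1.good hpO).pos
  rw [Pool.Agent.N22.DD.blkAlt_sq h.block] at h2
  change 2 * S p O (WrS (bxS B B)) = (S p O B ^ 2) ^ 2 + 3 * S p O B ^ 2 at h2
  linear_combination h2

theorem S_wr (hp2 : p ≠ 2) (hpO : (p : ℂ) ∈ O.nonunits) {G : Type} [Group G] {B : Set (G → ℂ)}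
    (h : AdmB p O G B) : 2 * S p O (WrS B) = S p O B ^ 2 + 3 * S p O B := by
  have := h.fin
  have := Fintype.ofFinite G
  exact Pool.Agent.Q90.WR.blkAlt_wr (p := p) hp2 hpO (h.good hpO).block (h.good hpO).pos

theorem adm_op (hp2 : p ≠ 2) (hpO : (p : ℂ) ∈ O.nonunits) {G : Type} [Group G] {B : Set (G → ℂ)}
    (h : AdmB p O G B) : AdmB p O (Wr (G × G)) (WrS (bxS B B)) := by
  have := h.fin
  have := Fintype.ofFinite G
  exact (Pool.Agent.N22.DD.AdmB.prod h h).wr hp2 hpO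

theorem op_nonneg (hp2 : p ≠ 2) (hpO : (p : ℂ) ∈ O.nonunits) {G : Type} [Group G]
    {B : Set (G → ℂ)} (h : AdmB p O G B) : 0 ≤ S p O (WrS (bxS B B)) := by
  have h1 := S_op hp2 hpO h
  have h2 := sq_nonneg (S p O B ^ 2)
  have h3 := sq_nonneg (S p O B)
  have h4 : S p O B ^ 4 = (S p O B ^ 2) ^ 2 := by ring
  linarith

theorem op_le_one (hp2 : p ≠ 2) (hpO : (p : ℂ) ∈ O.nonunits) {G : Type} [Group G]
    {B : Set (G → ℂ)} (h : AdmB p O G B) : S p O B = 0 ↔ S p O (WrS (bxS B B)) ≤ 1 := by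
  have h1 := S_op hp2 hpO h
  constructor
  · intro h2
    rw [h2] at h1
    omega
  · intro h2
    by_contra h3
    have h4 : 1 ≤ S p O B ^ 2 := by
      have := sq_nonneg (S p O B)
      have h5 : S p O B ^ 2 ≠ 0 := pow_ne_zero 2 h3
      omega
    have h5 : S p O B ^ 4 = (S p O B ^ 2) * (S p O B ^ 2) := by ring
    nlinarith

/-- the class closed under the operation -/
theorem main_op (hp2 : p ≠ 2) (hpO : (p : ℂ) ∈ O.nonunits)
    (hA : ∀ (G : Type) [i : Group G] (B : Set (G → ℂ)), C G i B → AdmB p O G B)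
    (hC : ∀ (G : Type) [i : Group G] (B : Set (G → ℂ)), C G i B →
      C (Wr (G × G)) inferInstance (WrS (bxS B B))) (hs : Sub p O C) :
    ∀ (G : Type) [i : Group G] (B : Set (G → ℂ)), C G i B → S p O B = 0 := by
  have key : ∀ (ε : ℝ), 0 < ε → ∀ c : ℝ, 0 ≤ c →
      (∀ (G : Type) [i : Group G] (B : Set (G → ℂ)), C G i B →
        (S p O B : ℝ) ≤ c * (Nat.card G : ℝ) ^ ε) →
      ∀ (k : ℕ) (G : Type) [i : Group G] (B : Set (G → ℂ)), C G i B → 0 ≤ S p O B →
        ((S p O B : ℝ) ^ 3 / 2) ^ (4 ^ k) ≤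
          (c ^ 3 / 2) * ((2 * (Nat.card G : ℝ) ^ 3) ^ ε) ^ (4 ^ k) := by
    intro ε hε c hc h k
    induction k with
    | zero =>
      intro G _ B hB h0
      have hg : (0 : ℝ) ≤ Nat.card G := Nat.cast_nonneg _
      have h0' : (0 : ℝ) ≤ (S p O B : ℝ) := by exact_mod_cast h0
      rw [pow_zero, pow_one, pow_one]
      have h1 := pow_le_pow_left₀ h0' (h G B hB) 3
      have h2 : (1 : ℝ) ≤ 2 ^ ε := Real.one_le_rpow (by norm_num) hε.le
      have h3 : ((Nat.card G : ℝ) ^ 3) ^ ε = ((Nat.card G : ℝ) ^ ε) ^ 3 := rpow_pow' hg 3 ε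
      rw [Real.mul_rpow (by norm_num) (pow_nonneg hg 3), h3]
      rw [mul_pow] at h1
      have h4 : 0 ≤ c ^ 3 * ((Nat.card G : ℝ) ^ ε) ^ 3 :=
        mul_nonneg (pow_nonneg hc 3) (pow_nonneg (Real.rpow_nonneg hg _) 3)
      nlinarith
    | succ k ih =>
      intro G _ B hB h0
      have h1 := ih _ _ (hC G B hB) (op_nonneg hp2 hpO (hA G B hB))
      have h2 := S_op hp2 hpO (hA G B hB)
      have h2' : 2 * (S p O (WrS (bxS B B)) : ℝ) = (S p O B : ℝ) ^ 4 + 3 * (S p O B : ℝ) ^ 2 := by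
        exact_mod_cast h2
      have hcard : (Nat.card (Wr (G × G)) : ℝ) = 2 * (Nat.card G : ℝ) ^ 4 := by
        have := (hA G B hB).fin
        rw [Pool.Agent.Q90.WR.Wr.card, Nat.card_prod]
        push_cast
        ring
      rw [hcard] at h1
      have h3 : (2 * (2 * (Nat.card G : ℝ) ^ 4) ^ 3) = (2 * (Nat.card G : ℝ) ^ 3) ^ 4 := by ring
      have hg : (0 : ℝ) ≤ 2 * (Nat.card G : ℝ) ^ 3 := by positivity
      have h4 : ((2 * (Nat.card G : ℝ) ^ 3) ^ 4) ^ ε = ((2 * (Nat.card G : ℝ) ^ 3) ^ ε) ^ 4 :=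
        rpow_pow' hg 4 ε
      rw [h3, h4, ← pow_mul] at h1
      have h5 : 4 * 4 ^ k = 4 ^ (k + 1) := by rw [pow_succ, mul_comm]
      rw [h5] at h1
      refine le_trans ?_ h1
      rw [← h5, pow_mul]
      refine pow_le_pow_left₀ (by positivity) ?_ _
      have h6 : (S p O B : ℝ) ^ 4 / 2 ≤ (S p O (WrS (bxS B B)) : ℝ) := by
        have := sq_nonneg (S p O B : ℝ)
        linarith
      have h7 := pow_le_pow_left₀ (by positivity) h6 3
      calc ((S p O B : ℝ) ^ 3 / 2) ^ 4 = ((S p O B : ℝ) ^ 4 / 2) ^ 3 / 2 := by ring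
        _ ≤ _ := by linarith
  have key2 : ∀ (G : Type) [i : Group G] (B : Set (G → ℂ)), C G i B → 0 ≤ S p O B →
      S p O B ≤ 1 := by
    intro G _ B hB h0
    have := (hA G B hB).fin
    have hg : (0 : ℝ) < 2 * (Nat.card G : ℝ) ^ 3 := by
      have : (0 : ℝ) < Nat.card G := by exact_mod_cast Nat.card_pos (α := G)
      positivity
    have h1 : (S p O B : ℝ) ^ 3 / 2 ≤ 1 := by
      refine Pool.Agent.N22.DD.le_one_of_rpow hg fun ε hε => ?_
      obtain ⟨c, hc⟩ := hs ε hε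
      refine le_of_powers (m := 4) (by norm_num) (Real.rpow_pos_of_pos hg ε)
        (fun k => key ε hε (max c 0) (le_max_right _ _) (fun G _ B hB => ?_) k G B hB h0)
      exact (hc G B hB).trans (mul_le_mul_of_nonneg_right (le_max_left _ _)
        (Real.rpow_nonneg (Nat.cast_nonneg _) _))
    have h2 : (S p O B : ℝ) ^ 3 ≤ 2 := by linarith
    have h3 : S p O B ^ 3 ≤ 2 := by exact_mod_cast h2
    by_contra h4
    push Not at h4
    have h5 : 2 ≤ S p O B := h4
    have h6 := pow_le_pow_left₀ (by norm_num) h5 3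
    norm_num at h6
    linarith
  intro G _ B hB
  exact (op_le_one hp2 hpO (hA G B hB)).mpr
    (key2 _ _ (hC G B hB) (op_nonneg hp2 hpO (hA G B hB)))

/-- classes closed under wreath products -/
theorem main_wr (hp2 : p ≠ 2) (hpO : (p : ℂ) ∈ O.nonunits)
    (hA : ∀ (G : Type) [i : Group G] (B : Set (G → ℂ)), C G i B → AdmB p O G B)
    (hC : ∀ (G : Type) [i : Group G] (B : Set (G → ℂ)), C G i B →
      C (Wr G) inferInstance (WrS B)) (hs : Sub p O C) :
    ∀ (G : Type) [i : Group G] (B : Set (G → ℂ)), C G i B → -3 ≤ S p O B ∧ S p O B ≤ 0 := by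
  have key : ∀ (ε : ℝ), 0 < ε → ∀ c : ℝ, 0 ≤ c →
      (∀ (G : Type) [i : Group G] (B : Set (G → ℂ)), C G i B →
        (S p O B : ℝ) ≤ c * (Nat.card G : ℝ) ^ ε) →
      ∀ (k : ℕ) (G : Type) [i : Group G] (B : Set (G → ℂ)), C G i B → 0 ≤ S p O B →
        (((S p O B : ℝ) + 3 / 2) / 2) ^ (2 ^ k) ≤
          (c + 1) * ((2 * (Nat.card G : ℝ)) ^ ε) ^ (2 ^ k) := by
    intro ε hε c hc h k
    induction k with
    | zero =>
      intro G _ B hB h0
      have := (hA G B hB).fin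
      have hg : (1 : ℝ) ≤ Nat.card G := by exact_mod_cast Nat.card_pos (α := G)
      rw [pow_zero, pow_one, pow_one]
      have h1 := h G B hB
      have h2 : (1 : ℝ) ≤ 2 ^ ε := Real.one_le_rpow (by norm_num) hε.le
      have h3 : (1 : ℝ) ≤ (Nat.card G : ℝ) ^ ε := Real.one_le_rpow hg hε.le
      rw [Real.mul_rpow (by norm_num) (by linarith)]
      have h4 : (Nat.card G : ℝ) ^ ε ≤ 2 ^ ε * (Nat.card G : ℝ) ^ ε := by nlinarith
      have h5 : c * (Nat.card G : ℝ) ^ ε ≤ c * (2 ^ ε * (Nat.card G : ℝ) ^ ε) :=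
        mul_le_mul_of_nonneg_left h4 hc
      have h6 : 0 ≤ c * (Nat.card G : ℝ) ^ ε := mul_nonneg hc (by linarith)
      linarith
    | succ k ih =>
      intro G _ B hB h0
      have h2 := S_wr hp2 hpO (hA G B hB)
      have h2' : 2 * (S p O (WrS B) : ℝ) = (S p O B : ℝ) ^ 2 + 3 * (S p O B : ℝ) := by
        exact_mod_cast h2
      have h1 := ih _ _ (hC G B hB) (by nlinarith)
      have hcard : (Nat.card (Wr G) : ℝ) = 2 * (Nat.card G : ℝ) ^ 2 := by
        have := (hA G B hB).fin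
        rw [Pool.Agent.Q90.WR.Wr.card]
        push_cast
        ring
      rw [hcard] at h1
      have h3 : (2 * (2 * (Nat.card G : ℝ) ^ 2)) = (2 * (Nat.card G : ℝ)) ^ 2 := by ring
      have hg : (0 : ℝ) ≤ 2 * (Nat.card G : ℝ) := by positivity
      have h4 : ((2 * (Nat.card G : ℝ)) ^ 2) ^ ε = ((2 * (Nat.card G : ℝ)) ^ ε) ^ 2 :=
        rpow_pow' hg 2 ε
      rw [h3, h4, ← pow_mul] at h1
      have h5 : 2 * 2 ^ k = 2 ^ (k + 1) := by rw [pow_succ, mul_comm]
      rw [h5] at h1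
      refine le_trans ?_ h1
      have h0' : (0 : ℝ) ≤ (S p O B : ℝ) := by exact_mod_cast h0
      rw [← h5, pow_mul]
      refine pow_le_pow_left₀ (by positivity) ?_ _
      nlinarith
  have key2 : ∀ (G : Type) [i : Group G] (B : Set (G → ℂ)), C G i B → S p O B ≤ 0 := by
    intro G _ B hB
    by_contra h0
    push Not at h0
    have := (hA G B hB).fin
    have hg : (0 : ℝ) < 2 * (Nat.card G : ℝ) := by
      have : (0 : ℝ) < Nat.card G := by exact_mod_cast Nat.card_pos (α := G)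
      positivity
    have h1 : ((S p O B : ℝ) + 3 / 2) / 2 ≤ 1 := by
      refine Pool.Agent.N22.DD.le_one_of_rpow hg fun ε hε => ?_
      obtain ⟨c, hc⟩ := hs ε hε
      refine le_of_powers (m := 2) le_rfl (Real.rpow_pos_of_pos hg ε)
        (fun k => key ε hε (max c 0) (le_max_right _ _) (fun G _ B hB => ?_) k G B hB h0.le)
      exact (hc G B hB).trans (mul_le_mul_of_nonneg_right (le_max_left _ _)
        (Real.rpow_nonneg (Nat.cast_nonneg _) _))
    have h2 : (1 : ℝ) ≤ (S p O B : ℝ) := by exact_mod_cast h0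
    linarith
  intro G _ B hB
  refine ⟨?_, key2 G B hB⟩
  have h1 := key2 _ _ (hC G B hB)
  have h2 := S_wr hp2 hpO (hA G B hB)
  by_contra h3
  push Not at h3
  nlinarith

end

/-- **Alperin's weight conjecture for odd primes: upper bounds under one operation.** Let `p` be an odd
prime and `C` a class of pairs `(G, B)` of a finite group `G` with `O_p(G) = 1` and a block `B` of `G`
with nontrivial defect groups.
(1) If `C` is closed under the one operation `(G, B) ↦ ((G × G) ≀ C₂, (B ⊗ B) ≀ C₂)`, then `S(B) = 0`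
on `C` if and only if for every `ε > 0` the numbers `S(B) / |G|^ε` are bounded from above on `C`. The
class of all pairs has this property.
(2) If `C` is closed under `(G, B) ↦ (G ≀ C₂, B ≀ C₂)`, then the numbers `S(B) / |G|^ε` are bounded from
above on `C` for every `ε > 0` if and only if `S(B) ≤ 0` on `C` if and only if `-3 ≤ S(B) ≤ 0` on `C`.
(3) For one pair: `2 S((B ⊗ B) ≀ C₂) = S(B)⁴ + 3 S(B)²`, and `S(B) = 0` if and only if
`S((B ⊗ B) ≀ C₂) ≤ 1`. -/
theorem result (p : ℕ) [Fact p.Prime] (hp2 : p ≠ 2) (O : ValuationSubring ℂ)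
    (hpO : (p : ℂ) ∈ O.nonunits) :
    (∀ C : Cl, (∀ (G : Type) [i : Group G] (B : Set (G → ℂ)), C G i B → AdmB p O G B) →
      ((∀ (G : Type) [i : Group G] (B : Set (G → ℂ)), C G i B →
          C (Wr (G × G)) inferInstance (WrS (bxS B B))) →
        ((∀ (G : Type) [i : Group G] (B : Set (G → ℂ)), C G i B → S p O B = 0) ↔
          ∀ ε : ℝ, 0 < ε → ∃ c : ℝ, ∀ (G : Type) [i : Group G] (B : Set (G → ℂ)), C G i B →
            (S p O B : ℝ) ≤ c * (Nat.card G : ℝ) ^ ε)) ∧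
      ((∀ (G : Type) [i : Group G] (B : Set (G → ℂ)), C G i B →
          C (Wr G) inferInstance (WrS B)) →
        ((∀ ε : ℝ, 0 < ε → ∃ c : ℝ, ∀ (G : Type) [i : Group G] (B : Set (G → ℂ)), C G i B →
            (S p O B : ℝ) ≤ c * (Nat.card G : ℝ) ^ ε) ↔
          ∀ (G : Type) [i : Group G] (B : Set (G → ℂ)), C G i B → S p O B ≤ 0) ∧
        ((∀ (G : Type) [i : Group G] (B : Set (G → ℂ)), C G i B → S p O B ≤ 0) ↔
          ∀ (G : Type) [i : Group G] (B : Set (G → ℂ)), C G i B →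
            -3 ≤ S p O B ∧ S p O B ≤ 0))) ∧
    (∀ (G : Type) [i : Group G] (B : Set (G → ℂ)), AdmB p O G B →
      AdmB p O (Wr (G × G)) (WrS (bxS B B)) ∧ AdmB p O (Wr G) (WrS B) ∧
      2 * S p O (WrS (bxS B B)) = S p O B ^ 4 + 3 * S p O B ^ 2 ∧
      (S p O B = 0 ↔ S p O (WrS (bxS B B)) ≤ 1)) := by
  have hsub : ∀ C : Cl, (∀ (G : Type) [i : Group G] (B : Set (G → ℂ)), C G i B → S p O B ≤ 0) →
      ∀ ε : ℝ, 0 < ε → ∃ c : ℝ, ∀ (G : Type) [i : Group G] (B : Set (G → ℂ)), C G i B →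
        (S p O B : ℝ) ≤ c * (Nat.card G : ℝ) ^ ε := by
    intro C h ε _
    refine ⟨0, fun G _ B hB => ?_⟩
    rw [zero_mul]
    exact_mod_cast h G B hB
  refine ⟨fun C hA => ⟨fun hC => ⟨fun h => hsub C fun G _ B hB => (h G B hB).le,
    main_op hp2 hpO hA hC⟩, fun hC => ?_⟩, fun G _ B hB => ?_⟩
  · have h1 : (∀ (G : Type) [i : Group G] (B : Set (G → ℂ)), C G i B → S p O B ≤ 0) →
        ∀ (G : Type) [i : Group G] (B : Set (G → ℂ)), C G i B → -3 ≤ S p O B ∧ S p O B ≤ 0 :=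
      fun h => main_wr hp2 hpO hA hC (hsub C h)
    exact ⟨⟨fun h G _ B hB => (main_wr hp2 hpO hA hC h G B hB).2, hsub C⟩,
      ⟨h1, fun h G _ B hB => (h G B hB).2⟩⟩
  · have := hB.fin
    have := Fintype.ofFinite G
    exact ⟨adm_op hp2 hpO hB, hB.wr hp2 hpO, S_op hp2 hpO hB, op_le_one hp2 hpO hB⟩

end Pool.Agent.Results.MP_6a3f1a_al.OneOperation
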