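import Pool.Agent.J4.H3.AW.Lev

/-!
# Alternating sums of pairs of blocks for odd primes: equality is parity at all levels

Let `p` be an odd prime and `O` a valuation ring of `ℂ` whose maximal ideal contains `p`; blocks, defect
groups and block induction are defined by central characters modulo the maximal ideal of `O`
(`Pool.Agent.H254R3.IN`). For a block `B` of a finite group `G` let `S(B)` be the alternating sum
`∑_σ (-1)^|σ| k(B_σ)` of Knörr and Robinson over the classes of chains of nontrivial `p`-subgroups,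
`S_d(B)` the sum in which only the characters of defect `d` are counted, and `T(B)`, `T_d(B)` the sums
without signs.

Proof. For the block `B ≀ C₂` of `G ≀ C₂` one has `2 S(B ≀ C₂) = S(B)² + 3 S(B)` and a similar formula
for the generating functions of the numbers `S_d` (`Pool.Agent.Q90.WR.blkAlt_wr`, `blkDef_wr`). For two
blocks the differences `S(B) - S(B')` and `S(B ≀ C₂) - S(B' ≀ C₂)` satisfy
`2 (S(B ≀ C₂) - S(B' ≀ C₂)) = (S(B) - S(B')) (S(B) + S(B') + 3)`, and the second factor is odd if the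
first one is even. So the map `x ↦ (x² + 3x) / 2` is expanding on the 2-adic integers and an integer is
given by the parities of its iterates. For the generating functions one compares the coefficients of
even index.
-/

set_option autoImplicit false

noncomputable section

namespace Pool.Agent.Results.MP_6a3f1a_al.PairsOfBlocks

open Pool.Agent.Y63.KR (alternatingSum chainSetoid chainStabilizer)
open Pool.Agent.Q90.WR (Wr WrN WrSN IndS GoodB blkAlt blkDef anum)
open Pool.Agent.Q259.BW (WrS)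
open Pool.Agent.H254R3.IN (IsBlock IsDefectGroup)
open Pool.Agent.J4.H3.AW

/-- `k(B_σ)` for `G_σ = H`: the number of the irreducible characters `θ` of the subgroup `H` with
`bl(θ)^G = B`. -/
def kB (O : ValuationSubring ℂ) {G : Type} [Group G] (B : Set (G → ℂ)) (H : Subgroup G) : ℕ :=
  Nat.card (IndS O B (Subtype.val : H → G))

/-- `k^d(B_σ)` for `G_σ = H`: the number of the irreducible characters `θ` of the subgroup `H` of
`p`-defect `d` with `bl(θ)^G = B`. -/
def kD (p : ℕ) (O : ValuationSubring ℂ) (d : ℕ) {G : Type} [Group G] (B : Set (G → ℂ))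
    (H : Subgroup G) : ℕ :=
  Nat.card {θ : H → ℂ // θ ∈ IndS O B (Subtype.val : H → G) ∧
    ∃ n : ℕ, θ 1 = (n : ℂ) ∧ n.factorization p + d = (Nat.card H).factorization p}

/-- The alternating sum `∑_σ (-1)^|σ| k(B_σ)` of Knörr and Robinson over representatives `σ` of the
`G`-classes of chains of nontrivial `p`-subgroups of `G`, the empty chain included. -/
def S (p : ℕ) (O : ValuationSubring ℂ) {G : Type} [Group G] (B : Set (G → ℂ)) : ℤ :=
  alternatingSum p G (fun H => (kB O B H : ℤ))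

/-- The same sum without signs. -/
def T (p : ℕ) (O : ValuationSubring ℂ) {G : Type} [Group G] (B : Set (G → ℂ)) : ℕ :=
  ∑ᶠ c : Quotient (chainSetoid p G), kB O B (chainStabilizer c.out.1)

/-- Dade's alternating sum `∑_σ (-1)^|σ| k^d(B_σ)`. -/
def SD (p : ℕ) (O : ValuationSubring ℂ) (d : ℕ) {G : Type} [Group G] (B : Set (G → ℂ)) : ℤ :=
  alternatingSum p G (fun H => (kD p O d B H : ℤ))

/-- The same sum without signs. -/
def TD (p : ℕ) (O : ValuationSubring ℂ) (d : ℕ) {G : Type} [Group G] (B : Set (G → ℂ)) : ℕ :=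
  ∑ᶠ c : Quotient (chainSetoid p G), kD p O d B (chainStabilizer c.out.1)

/-- `B` is a block of the finite group `G` with a nontrivial defect group. -/
structure Pos (p : ℕ) (O : ValuationSubring ℂ) (G : Type) [Group G] (B : Set (G → ℂ)) : Prop where
  fin : Finite G
  block : IsBlock O B
  defect : ∃ D, IsDefectGroup p O B D ∧ D ≠ ⊥

/-- A class of pairs `(G, B)`, `(G', B')`. -/
abbrev PairClass : Type 1 :=
  (G : Type) → Group G → Set (G → ℂ) → (G' : Type) → Group G' → Set (G' → ℂ) → Prop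

section

variable {p : ℕ} [hp : Fact p.Prime] {O : ValuationSubring ℂ}

theorem good (hpO : (p : ℂ) ∈ O.nonunits) {G : Type} [Group G] {B : Set (G → ℂ)}
    (h : Pos p O G B) : GoodB O B := by
  have := h.fin
  have := Fintype.ofFinite G
  obtain ⟨D, hD, hne⟩ := h.defect
  exact ⟨h.block, Pool.Agent.Q259.BW.nonunits_of_defect hpO h.block hD hne⟩

theorem one (hp2 : p ≠ 2) (hpO : (p : ℂ) ∈ O.nonunits) (G G' : Type) [Group G] [Group G']
    (B : Set (G → ℂ)) (B' : Set (G' → ℂ)) (h : Pos p O G B) (h' : Pos p O G' B') :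
    (∀ a : ℕ, (2 : ℤ) ^ a ∣ S p O B - S p O B' ↔
      ∀ j < a, T p O (WrSN j B) ≡ T p O (WrSN j B') [MOD 2]) ∧
    (S p O B = S p O B' ↔ ∀ j, T p O (WrSN j B) ≡ T p O (WrSN j B') [MOD 2]) := by
  have := h.fin
  have := h'.fin
  have e : ∀ j, T p O (WrSN j B) ≡ T p O (WrSN j B') [MOD 2] ↔
      (2 : ℤ) ∣ S p O (WrSN j B) - S p O (WrSN j B') := fun j =>
    par_iff (p := p) (fun H => kB O (WrSN j B) H) (fun H => kB O (WrSN j B') H)
  simp_rw [e]
  exact ⟨fun a => lev_iff a (fun j => S p O (WrSN j B)) (fun j => S p O (WrSN j B'))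
      (fun j => alt_rec hp2 hpO j G B (good hpO h)) (fun j => alt_rec hp2 hpO j G' B' (good hpO h')),
    lev_eq (fun j => S p O (WrSN j B)) (fun j => S p O (WrSN j B'))
      (fun j => alt_rec hp2 hpO j G B (good hpO h)) (fun j => alt_rec hp2 hpO j G' B' (good hpO h'))⟩

theorem dade (hp2 : p ≠ 2) (hpO : (p : ℂ) ∈ O.nonunits) (G G' : Type) [Group G] [Group G']
    (B : Set (G → ℂ)) (B' : Set (G' → ℂ)) (h : Pos p O G B) (h' : Pos p O G' B') :
    (∀ a : ℕ, (∀ d, (2 : ℤ) ^ a ∣ SD p O d B - SD p O d B') ↔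
      ∀ j < a, ∀ d, TD p O d (WrSN j B) ≡ TD p O d (WrSN j B') [MOD 2]) ∧
    ((∀ d, SD p O d B = SD p O d B') ↔
      ∀ j d, TD p O d (WrSN j B) ≡ TD p O d (WrSN j B') [MOD 2]) := by
  have := h.fin
  have := h'.fin
  have e : ∀ j d, TD p O d (WrSN j B) ≡ TD p O d (WrSN j B') [MOD 2] ↔
      (2 : ℤ) ∣ SD p O d (WrSN j B) - SD p O d (WrSN j B') := fun j d =>
    par_iff (p := p) (fun H => kD p O d (WrSN j B) H) (fun H => kD p O d (WrSN j B') H)
  simp_rw [e]
  exact ⟨fun a => glev_iff a (fun j d => SD p O d (WrSN j B)) (fun j d => SD p O d (WrSN j B'))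
      (fun j => def_rec hp2 hpO j G B (good hpO h)) (fun j => def_rec hp2 hpO j G' B' (good hpO h')),
    glev_eq (fun j d => SD p O d (WrSN j B)) (fun j d => SD p O d (WrSN j B'))
      (fun j => def_rec hp2 hpO j G B (good hpO h)) (fun j => def_rec hp2 hpO j G' B' (good hpO h'))⟩

end

/-- **Pairs of blocks for odd primes: equality of the alternating sums is parity at all levels.** Let
`p` be an odd prime.
(1) Let `B`, `B'` be blocks with nontrivial defect groups of finite groups `G`, `G'`, and `B_j`, `B'_j`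
the blocks `WrSN j B`, `WrSN j B'` of the iterated wreath products with `C₂`. Then
`S(B) ≡ S(B')` modulo `2^a` if and only if `T(B_j) ≡ T(B'_j)` modulo `2` for all `j < a`, and
`S(B) = S(B')` if and only if `T(B_j) ≡ T(B'_j)` modulo `2` for all `j`.
(2) The same for Dade's numbers: `S_d(B) ≡ S_d(B')` modulo `2^a` for all `d` if and only if
`T_d(B_j) ≡ T_d(B'_j)` modulo `2` for all `d` and `j < a`; `S_d(B) = S_d(B')` for all `d` if and only if
`T_d(B_j) ≡ T_d(B'_j)` modulo `2` for all `d` and `j`.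
(3) For every class `C` of pairs of such blocks closed under `(B, B') ↦ (B ≀ C₂, B' ≀ C₂)`:
`S(B) = S(B')` on `C` if and only if `T(B)` and `T(B')` have the same parity on `C`; and
`S_d(B) = S_d(B')` for all `d` on `C` if and only if `T_d(B)` and `T_d(B')` have the same parity for
all `d` on `C`. -/
theorem result (p : ℕ) [Fact p.Prime] (hp2 : p ≠ 2) (O : ValuationSubring ℂ)
    (hpO : (p : ℂ) ∈ O.nonunits) :
    (∀ (G G' : Type) [Group G] [Group G'] (B : Set (G → ℂ)) (B' : Set (G' → ℂ)), Pos p O G B →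
      Pos p O G' B' →
      ((∀ a : ℕ, (2 : ℤ) ^ a ∣ S p O B - S p O B' ↔
        ∀ j < a, T p O (WrSN j B) ≡ T p O (WrSN j B') [MOD 2]) ∧
      (S p O B = S p O B' ↔ ∀ j, T p O (WrSN j B) ≡ T p O (WrSN j B') [MOD 2])) ∧
      ((∀ a : ℕ, (∀ d, (2 : ℤ) ^ a ∣ SD p O d B - SD p O d B') ↔
        ∀ j < a, ∀ d, TD p O d (WrSN j B) ≡ TD p O d (WrSN j B') [MOD 2]) ∧
      ((∀ d, SD p O d B = SD p O d B') ↔
        ∀ j d, TD p O d (WrSN j B) ≡ TD p O d (WrSN j B') [MOD 2]))) ∧
    ∀ C : PairClass,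
      (∀ (G : Type) [i : Group G] (B : Set (G → ℂ)) (G' : Type) [i' : Group G'] (B' : Set (G' → ℂ)),
        C G i B G' i' B' → Pos p O G B ∧ Pos p O G' B') →
      (∀ (G : Type) [i : Group G] (B : Set (G → ℂ)) (G' : Type) [i' : Group G'] (B' : Set (G' → ℂ)),
        C G i B G' i' B' → C (Wr G) inferInstance (WrS B) (Wr G') inferInstance (WrS B')) →
      ((∀ (G : Type) [i : Group G] (B : Set (G → ℂ)) (G' : Type) [i' : Group G']
          (B' : Set (G' → ℂ)), C G i B G' i' B' → S p O B = S p O B') ↔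
        ∀ (G : Type) [i : Group G] (B : Set (G → ℂ)) (G' : Type) [i' : Group G']
          (B' : Set (G' → ℂ)), C G i B G' i' B' → T p O B ≡ T p O B' [MOD 2]) ∧
      ((∀ (G : Type) [i : Group G] (B : Set (G → ℂ)) (G' : Type) [i' : Group G']
          (B' : Set (G' → ℂ)), C G i B G' i' B' → ∀ d, SD p O d B = SD p O d B') ↔
        ∀ (G : Type) [i : Group G] (B : Set (G → ℂ)) (G' : Type) [i' : Group G']
          (B' : Set (G' → ℂ)), C G i B G' i' B' → ∀ d, TD p O d B ≡ TD p O d B' [MOD 2]) := by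
  refine ⟨fun G G' _ _ B B' h h' => ⟨one hp2 hpO G G' B B' h h', dade hp2 hpO G G' B B' h h'⟩, ?_⟩
  intro C h1 h2
  have hN : ∀ (j : ℕ) (G : Type) [i : Group G] (B : Set (G → ℂ)) (G' : Type) [i' : Group G']
      (B' : Set (G' → ℂ)), C G i B G' i' B' →
      C (WrN j G) inferInstance (WrSN j B) (WrN j G') inferInstance (WrSN j B') := by
    intro j
    induction j with
    | zero => exact fun G _ B G' _ B' h => h
    | succ j ih => exact fun G _ B G' _ B' h => ih (Wr G) (WrS B) (Wr G') (WrS B') (h2 G B G' B' h)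
  refine ⟨⟨fun h G _ B G' _ B' hC => ?_, fun h G _ B G' _ B' hC => ?_⟩,
    ⟨fun h G _ B G' _ B' hC d => ?_, fun h G _ B G' _ B' hC => ?_⟩⟩
  · obtain ⟨c1, c2⟩ := h1 G B G' B' hC
    exact (one hp2 hpO G G' B B' c1 c2).2.mp (h G B G' B' hC) 0
  · obtain ⟨c1, c2⟩ := h1 G B G' B' hC
    exact (one hp2 hpO G G' B B' c1 c2).2.mpr fun j => h _ _ _ _ (hN j G B G' B' hC)
  · obtain ⟨c1, c2⟩ := h1 G B G' B' hC
    exact (dade hp2 hpO G G' B B' c1 c2).2.mp (h G B G' B' hC) 0 d
  · obtain ⟨c1, c2⟩ := h1 G B G' B' hC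
    exact (dade hp2 hpO G G' B B' c1 c2).2.mpr fun j => h _ _ _ _ (hN j G B G' B' hC)

end Pool.Agent.Results.MP_6a3f1a_al.PairsOfBlocks
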