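import Pool.Agent.Q90.WR.Krq
import Pool.Agent.J4.H3.AW.Lev

/-!
# Alperin's weight conjecture for odd primes: pairs of groups and the parity of real classes

For a prime `p` and a finite group `G` let `K(G) = ∑_σ (-1)^|σ| k(G_σ)`, the sum over the classes of
chains of nontrivial `p`-subgroups of `G`, and let `z(G)` be the number of irreducible characters of
`p`-defect zero. The conjecture `K(G) = z(G)` is the sum of Q1 over the blocks of `G`.

Proof. For odd `p` the numbers `K` and `z` satisfy the same recursion `2 x' = x² + 3 x` under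
`G ↦ G ≀ C₂` (`Pool.Agent.Q90.WR.altK_wr`, `defectZero_wr`). The map `x ↦ (x² + 3x) / 2` expands the
2-adic distance, so an integer modulo `2^a` is given by the parities of its first `a` iterates. Inversion
of classes and complex conjugation of characters show that `K(G)` has the parity of the number of real
classes of the stabilisers `G_σ`, and `z(G)` the parity of the number of real-valued characters of
`p`-defect zero.
-/

set_option autoImplicit false

noncomputable section

namespace Pool.Agent.Results.MP_6a3f1a_al.PairsOfGroups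

open Pool.Agent.Y63.KR (alternatingSum chainSetoid chainStabilizer)
open Pool.Agent.Y63.AWC (numDefectZero IsIrreducibleCharacter)
open Pool.Agent.Q90.WR (Wr WrN altK)
open Pool.Agent.J4.H3.AW

/-- The alternating sum `∑_σ (-1)^|σ| k(G_σ)`; `k(H)` is the number of conjugacy classes of `H`. -/
def K (p : ℕ) (G : Type) [Group G] : ℤ :=
  alternatingSum p G (fun H => (Nat.card (ConjClasses H) : ℤ))

/-- The number `∑_σ k_ℝ(G_σ)`, the sum without signs over representatives `σ` of the classes of chains
of nontrivial `p`-subgroups of `G`, the empty chain included; `k_ℝ(H)` is the number of conjugacy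
classes of `H` which contain with `x` also `x⁻¹`. -/
def R (p : ℕ) (G : Type) [Group G] : ℕ :=
  ∑ᶠ c : Quotient (chainSetoid p G), Nat.card {d : ConjClasses (chainStabilizer c.out.1) //
    ∃ x : chainStabilizer c.out.1, ConjClasses.mk x = d ∧ IsConj x x⁻¹}

/-- The number of real-valued irreducible complex characters of `p`-defect zero. -/
def zR (p : ℕ) (G : Type) [Group G] : ℕ :=
  Nat.card {χ : G → ℂ // IsIrreducibleCharacter χ ∧
    (∃ n : ℕ, χ 1 = (n : ℂ) ∧ n.factorization p = (Nat.card G).factorization p) ∧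
    ∀ g, (χ g).im = 0}

theorem K_mod (p : ℕ) (G : Type) [Group G] [Finite G] : K p G ≡ (R p G : ℤ) [ZMOD 2] :=
  Pool.Agent.Q90.WR.altK_mod p G

theorem z_mod (p : ℕ) (G : Type) [Group G] [Finite G] :
    (numDefectZero p G : ℤ) ≡ (zR p G : ℤ) [ZMOD 2] :=
  (Int.natCast_modEq_iff).mpr (Pool.Agent.Q90.WR.defectZero_mod p G)

theorem dvd_mod {x y : ℤ} {r s : ℕ} (hx : x ≡ (r : ℤ) [ZMOD 2]) (hy : y ≡ (s : ℤ) [ZMOD 2]) :
    (2 : ℤ) ∣ x - y ↔ r ≡ s [MOD 2] := by
  rw [← Int.natCast_modEq_iff]
  constructor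
  · intro h
    exact hx.symm.trans ((Int.modEq_iff_dvd.mpr h).symm.trans hy)
  · intro h
    exact (hy.trans (h.symm.trans hx.symm)).dvd

variable {p : ℕ} [hp : Fact p.Prime]

theorem K_rec (hp2 : p ≠ 2) : ∀ (j : ℕ) (G : Type) [Group G] [Finite G],
    2 * K p (WrN (j + 1) G) = K p (WrN j G) ^ 2 + 3 * K p (WrN j G) := by
  intro j
  induction j with
  | zero =>
    intro G _ _
    have := Fintype.ofFinite G
    exact Pool.Agent.Q90.WR.altK_wr (G := G) hp2
  | succ j ih => exact fun G _ _ => ih (Wr G)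

theorem z_rec (hp2 : p ≠ 2) : ∀ (j : ℕ) (G : Type) [Group G] [Finite G],
    2 * (numDefectZero p (WrN (j + 1) G) : ℤ) =
      (numDefectZero p (WrN j G) : ℤ) ^ 2 + 3 * numDefectZero p (WrN j G) := by
  intro j
  induction j with
  | zero =>
    intro G _ _
    have := Fintype.ofFinite G
    exact Pool.Agent.Q90.WR.defectZero_wr (G := G) hp2
  | succ j ih => exact fun G _ _ => ih (Wr G)

/-- A class of pairs of groups. -/
abbrev PairClass : Type 1 := (G : Type) → Group G → (G' : Type) → Group G' → Prop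

theorem cls {C : PairClass} {a b : (G : Type) → [Group G] → ℤ} {r s : (G : Type) → [Group G] → ℕ}
    (hN : ∀ (j : ℕ) (G : Type) [i : Group G] (G' : Type) [i' : Group G'],
      C G i G' i' → C (WrN j G) inferInstance (WrN j G') inferInstance)
    (h : ∀ (G : Type) [i : Group G] (G' : Type) [i' : Group G'], C G i G' i' →
      (a G = b G' ↔ ∀ j, r (WrN j G) ≡ s (WrN j G') [MOD 2])) :
    (∀ (G : Type) [i : Group G] (G' : Type) [i' : Group G'], C G i G' i' → a G = b G') ↔
      ∀ (G : Type) [i : Group G] (G' : Type) [i' : Group G'], C G i G' i' →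
        r G ≡ s G' [MOD 2] := by
  constructor
  · intro h1 G _ G' _ hC
    exact (h G G' hC).mp (h1 G G' hC) 0
  · intro h1 G _ G' _ hC
    exact (h G G' hC).mpr fun j => h1 _ _ (hN j G G' hC)

/-- **Alperin's weight conjecture for odd primes: pairs of groups and the parity of real classes.** Let
`p` be an odd prime, `G`, `G'` finite groups, `G_j = WrN j G`, `G'_j = WrN j G'` the iterated wreath
products with `C₂`.
(1) `K(G) ≡ z(G')` modulo `2^a` if and only if `R(G_j)` and `z_ℝ(G'_j)` have the same parity for all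
`j < a`, and `K(G) = z(G')` if and only if they have the same parity for all `j`. For `G' = G` the
equality is the sum over the blocks of Alperin's conjecture in the form of Knörr and Robinson.
(2) `K(G) ≡ K(G')` modulo `2^a` if and only if `R(G_j)` and `R(G'_j)` have the same parity for all
`j < a`, and `K(G) = K(G')` if and only if they have the same parity for all `j`.
(3) `z(G) ≡ z(G')` modulo `2^a` if and only if `z_ℝ(G_j)` and `z_ℝ(G'_j)` have the same parity for all
`j < a`, and `z(G) = z(G')` if and only if they have the same parity for all `j`.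
(4) For every class `C` of pairs of finite groups closed under `(G, G') ↦ (G ≀ C₂, G' ≀ C₂)`:
`K(G) = z(G')` on `C` if and only if `R(G)` and `z_ℝ(G')` have the same parity on `C`;
`K(G) = K(G')` on `C` if and only if `R(G)` and `R(G')` have the same parity on `C`;
`z(G) = z(G')` on `C` if and only if `z_ℝ(G)` and `z_ℝ(G')` have the same parity on `C`. -/
theorem result (p : ℕ) [Fact p.Prime] (hp2 : p ≠ 2) :
    (∀ (G G' : Type) [Group G] [Group G'] [Finite G] [Finite G'],
      ((∀ a : ℕ, (2 : ℤ) ^ a ∣ K p G - numDefectZero p G' ↔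
          ∀ j < a, R p (WrN j G) ≡ zR p (WrN j G') [MOD 2]) ∧
        (K p G = numDefectZero p G' ↔ ∀ j, R p (WrN j G) ≡ zR p (WrN j G') [MOD 2])) ∧
      ((∀ a : ℕ, (2 : ℤ) ^ a ∣ K p G - K p G' ↔
          ∀ j < a, R p (WrN j G) ≡ R p (WrN j G') [MOD 2]) ∧
        (K p G = K p G' ↔ ∀ j, R p (WrN j G) ≡ R p (WrN j G') [MOD 2])) ∧
      ((∀ a : ℕ, (2 : ℤ) ^ a ∣ (numDefectZero p G : ℤ) - numDefectZero p G' ↔
          ∀ j < a, zR p (WrN j G) ≡ zR p (WrN j G') [MOD 2]) ∧
        ((numDefectZero p G : ℤ) = numDefectZero p G' ↔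
          ∀ j, zR p (WrN j G) ≡ zR p (WrN j G') [MOD 2]))) ∧
    ∀ C : PairClass,
      (∀ (G : Type) [i : Group G] (G' : Type) [i' : Group G'], C G i G' i' →
        Finite G ∧ Finite G') →
      (∀ (G : Type) [i : Group G] (G' : Type) [i' : Group G'], C G i G' i' →
        C (Wr G) inferInstance (Wr G') inferInstance) →
      ((∀ (G : Type) [i : Group G] (G' : Type) [i' : Group G'], C G i G' i' →
          K p G = numDefectZero p G') ↔
        ∀ (G : Type) [i : Group G] (G' : Type) [i' : Group G'], C G i G' i' →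
          R p G ≡ zR p G' [MOD 2]) ∧
      ((∀ (G : Type) [i : Group G] (G' : Type) [i' : Group G'], C G i G' i' → K p G = K p G') ↔
        ∀ (G : Type) [i : Group G] (G' : Type) [i' : Group G'], C G i G' i' →
          R p G ≡ R p G' [MOD 2]) ∧
      ((∀ (G : Type) [i : Group G] (G' : Type) [i' : Group G'], C G i G' i' →
          (numDefectZero p G : ℤ) = numDefectZero p G') ↔
        ∀ (G : Type) [i : Group G] (G' : Type) [i' : Group G'], C G i G' i' →
          zR p G ≡ zR p G' [MOD 2]) := by
  have key : ∀ (G G' : Type) [Group G] [Group G'] [Finite G] [Finite G'],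
      ((∀ a : ℕ, (2 : ℤ) ^ a ∣ K p G - numDefectZero p G' ↔
          ∀ j < a, R p (WrN j G) ≡ zR p (WrN j G') [MOD 2]) ∧
        (K p G = numDefectZero p G' ↔ ∀ j, R p (WrN j G) ≡ zR p (WrN j G') [MOD 2])) ∧
      ((∀ a : ℕ, (2 : ℤ) ^ a ∣ K p G - K p G' ↔
          ∀ j < a, R p (WrN j G) ≡ R p (WrN j G') [MOD 2]) ∧
        (K p G = K p G' ↔ ∀ j, R p (WrN j G) ≡ R p (WrN j G') [MOD 2])) ∧
      ((∀ a : ℕ, (2 : ℤ) ^ a ∣ (numDefectZero p G : ℤ) - numDefectZero p G' ↔
          ∀ j < a, zR p (WrN j G) ≡ zR p (WrN j G') [MOD 2]) ∧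
        ((numDefectZero p G : ℤ) = numDefectZero p G' ↔
          ∀ j, zR p (WrN j G) ≡ zR p (WrN j G') [MOD 2])) := by
    intro G G' _ _ _ _
    have e1 : ∀ j, R p (WrN j G) ≡ zR p (WrN j G') [MOD 2] ↔
        (2 : ℤ) ∣ K p (WrN j G) - numDefectZero p (WrN j G') :=
      fun j => (dvd_mod (K_mod p _) (z_mod p _)).symm
    have e2 : ∀ j, R p (WrN j G) ≡ R p (WrN j G') [MOD 2] ↔
        (2 : ℤ) ∣ K p (WrN j G) - K p (WrN j G') :=
      fun j => (dvd_mod (K_mod p _) (K_mod p _)).symm
    have e3 : ∀ j, zR p (WrN j G) ≡ zR p (WrN j G') [MOD 2] ↔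
        (2 : ℤ) ∣ (numDefectZero p (WrN j G) : ℤ) - numDefectZero p (WrN j G') :=
      fun j => (dvd_mod (z_mod p _) (z_mod p _)).symm
    simp_rw [e1, e2, e3]
    exact ⟨⟨fun a => lev_iff a (fun j => K p (WrN j G)) (fun j => (numDefectZero p (WrN j G') : ℤ))
          (fun j => K_rec hp2 j G) (fun j => z_rec hp2 j G'),
        lev_eq (fun j => K p (WrN j G)) (fun j => (numDefectZero p (WrN j G') : ℤ))
          (fun j => K_rec hp2 j G) (fun j => z_rec hp2 j G')⟩,
      ⟨fun a => lev_iff a (fun j => K p (WrN j G)) (fun j => K p (WrN j G'))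
          (fun j => K_rec hp2 j G) (fun j => K_rec hp2 j G'),
        lev_eq (fun j => K p (WrN j G)) (fun j => K p (WrN j G'))
          (fun j => K_rec hp2 j G) (fun j => K_rec hp2 j G')⟩,
      ⟨fun a => lev_iff a (fun j => (numDefectZero p (WrN j G) : ℤ))
          (fun j => (numDefectZero p (WrN j G') : ℤ))
          (fun j => z_rec hp2 j G) (fun j => z_rec hp2 j G'),
        lev_eq (fun j => (numDefectZero p (WrN j G) : ℤ))
          (fun j => (numDefectZero p (WrN j G') : ℤ))
          (fun j => z_rec hp2 j G) (fun j => z_rec hp2 j G')⟩⟩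
  refine ⟨fun G G' _ _ _ _ => key G G', fun C h1 h2 => ?_⟩
  have hN : ∀ (j : ℕ) (G : Type) [i : Group G] (G' : Type) [i' : Group G'],
      C G i G' i' → C (WrN j G) inferInstance (WrN j G') inferInstance := by
    intro j
    induction j with
    | zero => exact fun G _ G' _ h => h
    | succ j ih => exact fun G _ G' _ h => ih (Wr G) (Wr G') (h2 G G' h)
  refine ⟨cls (a := fun G _ => K p G) (b := fun G _ => (numDefectZero p G : ℤ))
      (r := fun G _ => R p G) (s := fun G _ => zR p G) hN fun G _ G' _ hC => ?_,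
    cls (a := fun G _ => K p G) (b := fun G _ => K p G)
      (r := fun G _ => R p G) (s := fun G _ => R p G) hN fun G _ G' _ hC => ?_,
    cls (a := fun G _ => (numDefectZero p G : ℤ)) (b := fun G _ => (numDefectZero p G : ℤ))
      (r := fun G _ => zR p G) (s := fun G _ => zR p G) hN fun G _ G' _ hC => ?_⟩
  · obtain ⟨f1, f2⟩ := h1 G G' hC
    exact (key G G').1.2
  · obtain ⟨f1, f2⟩ := h1 G G' hC
    exact (key G G').2.1.2
  · obtain ⟨f1, f2⟩ := h1 G G' hC
    exact (key G G').2.2.2

end Pool.Agent.Results.MP_6a3f1a_al.PairsOfGroups
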