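import Pool.Agent.J4.H3.PG.Ext2

/-!
# The weight conjecture and perfect groups with one simple factor group

Let `p` be a prime and `S` a finite nonabelian simple group, fixed once and for all, for instance the
alternating group of degree 5. The theorem below reduces Q1 at `p`, for all finite groups or for the groups
in a class which is closed under extensions by `S`, to an estimate, up to a factor `|H| ^ o(1)`, of the number
`l(B)` of irreducible Brauer characters and of the number `w(B)` of classes of weights of a block `B` against
each other, for groups `H` in the class which have a largest proper normal subgroup `N` such that `H / N` is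
isomorphic to `S`; such a group is perfect and all its nontrivial factor groups have `S` as a factor group.

Proof. By the library the weight conjecture for blocks reduces to groups `G` with `O_p(G) = 1` and without
normal subgroups of index `p`. For such a group and a large perfect group `Q` (an iterated wreath product of
groups isomorphic to `S`) let `H` be the kernel of `G ≀ Q → G / G'`, the map which takes the product of the
coordinates. Then `H` is perfect, its largest proper normal subgroup lies over that of `Q`, `O_p(H) = 1`,
and `H ∩ G ^ Q` has index prime to `p`, at most `|G / G'|`, in `G ^ Q`. The average over the linear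
characters `μ` of `G` of the tensor powers of `μ e_B` is a central element of the group algebra of `G ^ Q`
with support in `H`, and one of its eigenvalues singles out `l(B) ^ n` irreducible characters and
`(|G| w(B)) ^ n` weights, up to a factor `|G / G'|`, `n = |Q|`. Numbers of characters and of
weights with a given eigenvalue of a central element change at most by a factor `n ^ O(log n)` between a
group and a normal subgroup of index `n`; for weights this uses the correspondence of Glauberman, Dade and
Nagao for weight characters over a normal subgroup of arbitrary index. So `l(B) ^ n` and `w(B) ^ n` differ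
at most by a subexponential factor, and `l(B) = w(B)` follows for `n → ∞`. A class of groups which is closed
under extensions by `S` is closed under extensions by `Q`; so it contains `H` if it contains `G`.
-/

set_option autoImplicit false

open scoped Classical BigOperators

noncomputable section

namespace Pool.Agent.Results.MP_6a3f1a_al.PerfectGroups

open Pool.Agent.Y63.NV (IsBlock numIrrBlock numWtBlock BAWC)
open Pool.Agent.Y63.AWC (pSubgroupSetoid)
open Pool.Agent.R674.KB (KRQ)

/-- `O_p(G) = 1`: every normal `p`-subgroup of `G` is trivial. -/
def OpTrivial (p : ℕ) (G : Type) [Group G] : Prop :=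
  ∀ M : Subgroup G, M.Normal → IsPGroup p M → M = ⊥

/-- `G` has no normal subgroup of index `p`. -/
def NoIndex (p : ℕ) (G : Type) [Group G] : Prop := ∀ N : Subgroup G, N.Normal → N.index ≠ p

/-- `H` has a largest proper normal subgroup `N`, and `H / N` is isomorphic to `S`. -/
def OneTopFactor (S H : Type) [Group S] [Group H] : Prop :=
  ∃ N : Subgroup H, ∃ _ : N.Normal, N ≠ ⊤ ∧ (∀ M : Subgroup H, M.Normal → M ≠ ⊤ → M ≤ N) ∧
    Nonempty (H ⧸ N ≃* S)

/-- A class `X` of groups the finite members of which are closed under isomorphisms, subgroups, factor groups
by normal `p`-subgroups, finite direct powers and extensions by `S`: if `N` is a normal subgroup of the finite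
group `G` such that `G / N` is isomorphic to `S` and `N` belongs to `X`, then `G` belongs to `X`. -/
structure ExtClosed (p : ℕ) (S : Type) [Group S] (X : (G : Type) → Group G → Prop) : Prop where
  iso : ∀ (G H : Type) (i : Group G) (j : Group H), Finite G → X G i → Nonempty (G ≃* H) → X H j
  sub : ∀ (G : Type) (i : Group G), Finite G → X G i → ∀ H : Subgroup G, X H inferInstance
  quot : ∀ (G : Type) (i : Group G), Finite G → X G i → ∀ (M : Subgroup G) (_ : M.Normal),
    IsPGroup p M → X (G ⧸ M) inferInstance
  pow : ∀ (G : Type) (i : Group G), Finite G → X G i → ∀ n : ℕ, X (Fin n → G) inferInstance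
  ext : ∀ (G : Type) (i : Group G), Finite G → ∀ (N : Subgroup G) (_ : N.Normal),
    Nonempty (G ⧸ N ≃* S) → X N inferInstance → X G i

/-- A class `C` of groups closed under isomorphisms, subgroups, factor groups and finite direct powers. -/
structure ClosedClass (C : (P : Type) → Group P → Prop) : Prop where
  iso : ∀ (P R : Type) (i : Group P) (j : Group R), C P i → Nonempty (P ≃* R) → C R j
  sub : ∀ (P : Type) (i : Group P), C P i → ∀ S : Subgroup P, C S inferInstance
  quot : ∀ (P : Type) (i : Group P), C P i → ∀ (M : Subgroup P) (_ : M.Normal), C (P ⧸ M) inferInstance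
  pow : ∀ (P : Type) (i : Group P), C P i → ∀ n : ℕ, C (Fin n → P) inferInstance

/-- The Sylow `p`-subgroups of `G` lie in `C`. -/
def SylowIn (p : ℕ) (C : (P : Type) → Group P → Prop) (G : Type) [Group G] : Prop :=
  ∀ P : Sylow p G, C P inferInstance

/-- The nonabelian simple sections of `G`, that is the nonabelian simple factor groups of subgroups of `G`,
lie in `𝓕`. -/
def SectionsIn (𝓕 : (T : Type) → Group T → Prop) (G : Type) [Group G] : Prop :=
  ∀ (T : Type) (j : Group T), IsSimpleGroup T → (∃ a b : T, a * b ≠ b * a) →
    ∀ (H : Subgroup G) (φ : H →* T), Function.Surjective φ → 𝓕 T j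

/-- `w(B)`: the number of `G`-classes of weights of the block `B` of `G`. The sum is over
representatives `Q` of the classes of `p`-subgroups, of the numbers of irreducible characters of
`N_G(Q)/Q` of defect zero such that the block of `G` induced by the block of the inflation is `B`. -/
def numWts (p : ℕ) {F : Type} [Field F] (red : integralClosure ℤ ℂ →+* F) {G : Type} [Group G]
    (B : (G → F) → F) : ℕ :=
  ∑ᶠ c : Quotient (pSubgroupSetoid p G), numWtBlock p red c.out.1 B

/-- **Reduction of the weight conjecture to perfect groups with one simple factor group.** Let `p` be a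
prime, `S` a finite nonabelian simple group, and `X` a class of finite groups closed under isomorphisms,
subgroups, factor groups by normal `p`-subgroups, finite direct powers and extensions by `S`. Let `𝓨` be the
class of the groups in `X` with `O_p(H) = 1` which have a largest proper normal subgroup, with factor group `S`.
(1) The alternating sums of Q1 vanish, for all blocks with nontrivial defect groups of all `G` in `X` with
`O_p(G) = 1`, if and only if `l(B) = w(B)` for all blocks of the groups in `𝓨`.
(2) They vanish if and only if for every `ε > 0` there is a constant `K` with `l(B) ≤ K |H| ^ ε w(B)` and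
`w(B) ≤ K |H| ^ ε l(B)` for all blocks `B` of all `H` in `𝓨`.
(3), (4) Each of the inequalities `l(B) ≤ w(B)`, `w(B) ≤ l(B)`, for all blocks of all `G` in `X` with
`O_p(G) = 1` and without normal subgroups of index `p`, is equivalent to the corresponding estimate in (2).
Such classes are, besides the class of all finite groups:
(5) if `p` does not divide `|S|`, the groups with Sylow `p`-subgroups in a class of groups closed under
isomorphisms, subgroups, factor groups and finite direct powers (such as the abelian groups);
(6) the groups all of whose nonabelian simple sections lie in a class which contains those of `S`. -/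
theorem result (p : ℕ) [Fact p.Prime] (F : Type) [Field F] [IsAlgClosed F] [CharP F p]
    (red : integralClosure ℤ ℂ →+* F) (S : Type) [Group S] [Finite S] [IsSimpleGroup S]
    (hS : ∃ a b : S, a * b ≠ b * a) :
    (∀ X : (G : Type) → Group G → Prop, ExtClosed p S X →
      ((∀ (G : Type) (i : Group G) (_ : Finite G), X G i → OpTrivial p G → KRQ p red G) ↔
        ∀ (H : Type) (i : Group H) (_ : Finite H), X H i → OneTopFactor S H →
          OpTrivial p H → BAWC p red H) ∧
      ((∀ (G : Type) (i : Group G) (_ : Finite G), X G i → OpTrivial p G → KRQ p red G) ↔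
        ∀ ε : ℝ, 0 < ε → ∃ K : ℝ, ∀ (H : Type) (i : Group H) (_ : Finite H), X H i →
          OneTopFactor S H → OpTrivial p H → ∀ B : (H → F) → F, IsBlock B →
            (numIrrBlock B : ℝ) ≤ K * (Nat.card H : ℝ) ^ ε * numWts p red B ∧
            (numWts p red B : ℝ) ≤ K * (Nat.card H : ℝ) ^ ε * numIrrBlock B) ∧
      ((∀ (G : Type) (i : Group G) (_ : Finite G), X G i → OpTrivial p G → NoIndex p G →
          ∀ B : (G → F) → F, IsBlock B → numIrrBlock B ≤ numWts p red B) ↔
        ∀ ε : ℝ, 0 < ε → ∃ K : ℝ, ∀ (H : Type) (i : Group H) (_ : Finite H), X H i →
          OneTopFactor S H → OpTrivial p H → ∀ B : (H → F) → F, IsBlock B →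
            (numIrrBlock B : ℝ) ≤ K * (Nat.card H : ℝ) ^ ε * numWts p red B) ∧
      ((∀ (G : Type) (i : Group G) (_ : Finite G), X G i → OpTrivial p G → NoIndex p G →
          ∀ B : (G → F) → F, IsBlock B → numWts p red B ≤ numIrrBlock B) ↔
        ∀ ε : ℝ, 0 < ε → ∃ K : ℝ, ∀ (H : Type) (i : Group H) (_ : Finite H), X H i →
          OneTopFactor S H → OpTrivial p H → ∀ B : (H → F) → F, IsBlock B →
            (numWts p red B : ℝ) ≤ K * (Nat.card H : ℝ) ^ ε * numIrrBlock B)) ∧
    (¬ p ∣ Nat.card S → ∀ C : (P : Type) → Group P → Prop, ClosedClass C →
      ExtClosed p S (fun G i => @SylowIn p C G i)) ∧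
    (∀ 𝓕 : (T : Type) → Group T → Prop, SectionsIn 𝓕 S →
      ExtClosed p S (fun G i => @SectionsIn 𝓕 G i)) := by
  refine ⟨fun X hX => Pool.Agent.J4.H3.PG.ext_main p F red S hS X
    ⟨hX.iso, hX.sub, hX.quot, hX.pow, hX.ext⟩, fun hpS C hC => ?_, fun 𝓕 h𝓕 => ?_⟩
  · obtain ⟨h1, h2, h3, h4, h5⟩ :=
      Pool.Agent.J4.H3.PG.ext_syl (p := p) (S := S) ⟨hC.iso, hC.sub, hC.quot, hC.pow⟩ hpS
    exact ⟨h1, h2, h3, h4, h5⟩
  · obtain ⟨h1, h2, h3, h4, h5⟩ := Pool.Agent.J4.H3.PG.ext_sec (𝓕 := 𝓕) p (S := S) h𝓕
    exact ⟨h1, h2, h3, h4, h5⟩

end Pool.Agent.Results.MP_6a3f1a_al.PerfectGroups
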